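import Pool.Agent.ASE.Stmts6
import Pool.Agent.Helper45_ASO.HSM
import Pool.Agent.Helper33_ASO.NSV
import Pool.Agent.Helper25_K9.ROT

/-!
# Squad ASE, row ETS: the relations for the labels `et`
-/

set_option autoImplicit false

open scoped BigOperators

noncomputable section

namespace Pool.Agent.PP.SE.H59

open Pool.Agent.Helper51_AWC Pool.Agent.Helper79_WRA Pool.Agent.PP Pool.Agent.PP.KF
open Pool.Agent.PP.K9 Pool.Agent.PP.K9.H97 Pool.Agent.PP.H75 Pool.Agent.PP.T3 Pool.Agent.PP.SO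
open Pool.Agent.PP.SD

attribute [local instance] Ideal.Quotient.field

section aux

variable {V₀ G : Type} [CommGroup V₀] [Group G] {M : Ideal (integralClosure ℤ ℂ)} [M.IsMaximal]

omit [M.IsMaximal] in
theorem cv_mnl [Finite G] (E₀ : Subgroup (MulAut V₀)) (B : Bk (FF M) V₀ G) (c : V₀) (χ : G → ℂ) :
    cv (mnl E₀ B c ⊥) χ = (kE E₀ c : ℂ) * cv (fc B ⊥ c) χ := by
  have := Fintype.ofFinite G
  unfold cv mnl
  rw [finsum_eq_sum_of_fintype, finsum_eq_sum_of_fintype, if_pos bot_le, ← mul_div_assoc,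
    Finset.mul_sum]
  congr 1
  exact Finset.sum_congr rfl fun g _ => mul_assoc _ _ _

/-- the sum over a subgroup of prime order -/
theorem sum_line {ℓ : ℕ} (hℓ : ℓ.Prime) (hex : ∀ v : V₀, v ^ ℓ = 1) {a : Subgroup V₀}
    (ha : Nat.card a = ℓ) {κ : V₀} (hκ : κ ∈ a) (h1 : κ ≠ 1) (F : V₀ → ℂ) :
    ∑ᶠ x ∈ a, F x = F 1 + ∑ t ∈ Finset.Icc 1 (ℓ - 1), F (κ ^ t) := by
  classical
  have := Fact.mk hℓ
  have hord : orderOf κ = ℓ := orderOf_eq_prime (hex κ) h1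
  have hfin : Finite a := Nat.finite_of_card_ne_zero (by rw [ha]; exact hℓ.ne_zero)
  have hz : Subgroup.zpowers κ = a := by
    apply Subgroup.eq_of_le_of_card_ge (Subgroup.zpowers_le.2 hκ)
    rw [ha, Nat.card_zpowers, hord]
  have hinj : Set.InjOn (fun t : ℕ => κ ^ t) (Finset.range ℓ : Set ℕ) := by
    intro i hi j hj hij
    rw [Finset.coe_range, Set.mem_Iio] at hi hj
    exact pow_injOn_Iio_orderOf (by rw [hord]; exact hi) (by rw [hord]; exact hj) hij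
  have hset : ((Finset.range ℓ).image (fun t : ℕ => κ ^ t) : Set V₀) = (a : Set V₀) := by
    ext x
    rw [← hz]
    simp only [Finset.coe_image, Finset.coe_range, Set.mem_image, Set.mem_Iio, SetLike.mem_coe]
    rw [Subgroup.mem_zpowers_iff]
    constructor
    · rintro ⟨t, -, rfl⟩
      exact ⟨t, zpow_natCast _ _⟩
    · rintro ⟨k, rfl⟩
      have h2 : 0 ≤ k % (ℓ : ℤ) := Int.emod_nonneg _ (by exact_mod_cast hℓ.ne_zero)
      have h3 : k % (ℓ : ℤ) < ℓ := Int.emod_lt_of_pos _ (by exact_mod_cast hℓ.pos)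
      refine ⟨(k % (ℓ : ℤ)).toNat, by omega, ?_⟩
      rw [← zpow_natCast, Int.toNat_of_nonneg h2, ← hord, zpow_mod_orderOf]
  have h4 : ∑ᶠ x ∈ a, F x = ∑ᶠ x ∈ (a : Set V₀), F x := rfl
  rw [h4, ← hset, finsum_mem_coe_finset, Finset.sum_image hinj, Finset.range_eq_Ico,
    Finset.sum_eq_sum_Ico_succ_bot hℓ.pos, pow_zero]
  have h5 : Finset.Ico (0 + 1) ℓ = Finset.Icc 1 (ℓ - 1) := by
    ext t
    rw [Finset.mem_Ico, Finset.mem_Icc]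
    have := hℓ.pos
    omega
  rw [h5]

end aux

/-- ETS -/
theorem ets (etc : EtcStmt) (etg : EtgStmt) (hrat : HRatStmt) (homr : HOmrStmt)
    (hixe : HIxeStmt) : EtsStmt := by
  intro ℓ _ M _ hM hℓ2 V₀ G _ _ _ _ E₀ hF B hB D hD a ha κ hκ
  classical
  have := Fintype.ofFinite G
  have hℓ : ℓ.Prime := Fact.out
  have hℓ0 : (ℓ : ℂ) ≠ 0 := by exact_mod_cast hℓ.ne_zero
  have hac : Nat.card a = ℓ := ha.1
  have hab : a ≠ ⊥ := by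
    intro h
    rw [h, Subgroup.card_bot] at hac
    exact hℓ.one_lt.ne hac
  obtain ⟨S, hS⟩ : ∃ S : Finset (G → ℂ), ∀ χ, χ ∈ S ↔ χ ∈ IrrE M B.e :=
    ⟨(K9.H25.irrE_finite M B.e).toFinset, fun χ => Set.Finite.mem_toFinset _⟩
  have hsum : ∀ F : (G → ℂ) → ℂ, ∑ᶠ χ ∈ IrrE M B.e, F χ = ∑ χ ∈ S, F χ := by
    intro F
    have h1 : (S : Set (G → ℂ)) = IrrE M B.e := Set.ext fun χ => hS χ
    rw [← h1, finsum_mem_coe_finset]
  obtain ⟨E, hE⟩ : ∃ E : V₀ → (G → ℂ) → ℂ, E = fun κ χ => cv (etl B D a κ ⊥) χ := ⟨_, rfl⟩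
  have hLL : ∀ κ, LL B (etl B D a κ ⊥) = ∑ χ ∈ S, E κ χ := by
    intro κ
    unfold LL
    rw [hsum, hE]
  have hE1 : ∀ κ ∈ a, ∀ χ ∈ S, E κ χ / (ℓ : ℂ) ∈ RM M := by
    intro κ hκ χ hχ
    rw [hE]
    exact (etc ℓ M hM V₀ G E₀ hF B hB D hD a hab χ ((hS χ).1 hχ)).1 κ hκ
  have hE2 : ∀ χ ∈ S, (E 1 χ + ∑ t ∈ Finset.Icc 1 (ℓ - 1), E (κ ^ t) χ) / (ℓ : ℂ) ^ 2 ∈ RM M := by
    intro χ hχ
    by_cases h1 : κ = 1
    · have h2 : E 1 χ + ∑ t ∈ Finset.Icc 1 (ℓ - 1), E (κ ^ t) χ = (ℓ : ℂ) * E 1 χ := by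
        rw [h1]
        simp only [one_pow]
        rw [Finset.sum_const, Nat.card_Icc, nsmul_eq_mul, Nat.add_sub_cancel,
          Nat.cast_sub hℓ.one_lt.le]
        push_cast
        ring
      have h3 : (ℓ : ℂ) * E 1 χ / (ℓ : ℂ) ^ 2 = E 1 χ / (ℓ : ℂ) := by
        field_simp
      rw [h2, h3]
      exact hE1 1 a.one_mem χ hχ
    · have h2 := (etc ℓ M hM V₀ G E₀ hF B hB D hD a hab χ ((hS χ).1 hχ)).2 hac
      rw [sum_line hℓ hF.ex hac hκ h1] at h2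
      rw [hE]
      exact h2
  have hS2 : (∑ χ ∈ S, E 1 χ + ∑ t ∈ Finset.Icc 1 (ℓ - 1), ∑ χ ∈ S, E (κ ^ t) χ) /
      (ℓ : ℂ) ^ 2 ∈ RM M := by
    rw [Finset.sum_comm, ← Finset.sum_add_distrib, Finset.sum_div]
    exact (RM M).sum_mem hE2
  have hLL1 : ∀ κ ∈ a, LL B (etl B D a κ ⊥) / (ℓ : ℂ) ∈ RM M := by
    intro κ hκ
    rw [hLL, Finset.sum_div]
    exact (RM M).sum_mem fun χ hχ => hE1 κ hκ χ hχ
  have hnat : ∀ k : ℕ, (k : ℂ) ∈ RM M := fun k => (rr_nat k).1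
  refine ⟨hLL1 κ hκ, ?_, fun d hd => ⟨?_, ?_⟩⟩
  · -- (2)
    have h1 : ∀ t ∈ Finset.Icc 1 (ℓ - 1), ∑ χ ∈ S, E (κ ^ t) χ = ∑ χ ∈ S, E κ χ := by
      intro t ht
      rw [Finset.mem_Icc] at ht
      have hnd : ¬ ℓ ∣ t := by
        intro h
        have := Nat.le_of_dvd (by omega) h
        have := hℓ.pos
        omega
      rw [← hLL, ← hLL]
      exact (etg ℓ M hM hℓ2 V₀ G E₀ hF B hB D hD a hab κ hκ t hnd).1
    rw [Finset.sum_congr rfl h1, Finset.sum_const, Nat.card_Icc, nsmul_eq_mul,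
      Nat.add_sub_cancel, Nat.cast_sub hℓ.one_lt.le, ← hLL, ← hLL] at hS2
    have h3 : (LL B (etl B D a κ ⊥) - LL B (etl B D a 1 ⊥)) / (ℓ : ℂ) ^ 2 =
        LL B (etl B D a κ ⊥) / (ℓ : ℂ) - (LL B (etl B D a 1 ⊥) +
          ((ℓ : ℂ) - ((1 : ℕ) : ℂ)) * LL B (etl B D a κ ⊥)) / (ℓ : ℂ) ^ 2 := by
      push_cast
      field_simp
      ring
    rw [h3]
    exact (RM M).sub_mem (hLL1 κ hκ) hS2
  · -- (3)
    unfold NN
    rw [hsum, Finset.sum_div]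
    refine (RM M).sum_mem fun χ hχ => ?_
    have h1 : cv (etl B D a κ ⊥) χ * cv (mnl E₀ B d ⊥) χ / (ℓ : ℂ) =
        E κ χ / (ℓ : ℂ) * ((kE E₀ d : ℂ) * cv (fc B ⊥ d) χ) := by
      rw [cv_mnl, hE]
      ring
    rw [h1]
    exact (RM M).mul_mem (hE1 κ hκ χ hχ) ((RM M).mul_mem (hnat _)
      (homr ℓ M hM V₀ E₀ G B hB d χ ((hS χ).1 hχ)).1)
  · -- (4)
    have hix := ((hixe ℓ M hM V₀ E₀ G B hB).2.2.2 d).2.1
    have hr : ∀ χ ∈ S, ∃ r ∈ RM M, ∑ s ∈ Finset.Icc 1 (ℓ - 1), cv (mnl E₀ B (d ^ s) ⊥) χ =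
        -(Nat.card E₀ : ℂ) + (ℓ : ℂ) * r := by
      intro χ hχ
      obtain ⟨q, hq, hq'⟩ := hrat ℓ M hM V₀ hF.ex E₀ G B hB d hd χ ((hS χ).1 hχ)
      refine ⟨(kE E₀ d : ℂ) * (q : ℂ), (RM M).mul_mem (hnat _) (SO.H33.rl_RM hM hq), ?_⟩
      have h1 : ∀ s ∈ Finset.Icc 1 (ℓ - 1), cv (mnl E₀ B (d ^ s) ⊥) χ =
          (kE E₀ d : ℂ) * cv (fc B ⊥ (d ^ s)) χ := by
        intro s hs
        rw [Finset.mem_Icc] at hs
        rw [cv_mnl]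
        unfold kE
        rw [SO.H45.Es_pow (SO.H45.cop hℓ hF.cd hs.1 hs.2)]
      rw [Finset.sum_congr rfl h1, ← Finset.mul_sum, hq']
      have h2 : (nE E₀ d : ℂ) * (kE E₀ d : ℂ) = (Nat.card E₀ : ℂ) := by
        rw [← hix]
        push_cast
        rfl
      push_cast
      rw [← h2]
      ring
    choose! r hr1 hr2 using hr
    have h1 : ∑ t ∈ Finset.Icc 1 (ℓ - 1), ∑ s ∈ Finset.Icc 1 (ℓ - 1),
        NN B (etl B D a (κ ^ t) ⊥) (mnl E₀ B (d ^ s) ⊥) =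
        ∑ χ ∈ S, (∑ t ∈ Finset.Icc 1 (ℓ - 1), E (κ ^ t) χ) *
          (-(Nat.card E₀ : ℂ) + (ℓ : ℂ) * r χ) := by
      have h2 : ∀ t s : ℕ, NN B (etl B D a (κ ^ t) ⊥) (mnl E₀ B (d ^ s) ⊥) =
          ∑ χ ∈ S, E (κ ^ t) χ * cv (mnl E₀ B (d ^ s) ⊥) χ := by
        intro t s
        unfold NN
        rw [hsum, hE]
      simp only [h2]
      rw [Finset.sum_congr rfl fun t _ => Finset.sum_comm, Finset.sum_comm]
      refine Finset.sum_congr rfl fun χ hχ => ?_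
      rw [← hr2 χ hχ, Finset.sum_mul_sum]
    have h3 : (∑ t ∈ Finset.Icc 1 (ℓ - 1), ∑ s ∈ Finset.Icc 1 (ℓ - 1),
        NN B (etl B D a (κ ^ t) ⊥) (mnl E₀ B (d ^ s) ⊥) -
          Nat.card E₀ * LL B (etl B D a 1 ⊥)) / (ℓ : ℂ) ^ 2 =
        -(Nat.card E₀ : ℂ) * ((∑ χ ∈ S, E 1 χ + ∑ t ∈ Finset.Icc 1 (ℓ - 1),
          ∑ χ ∈ S, E (κ ^ t) χ) / (ℓ : ℂ) ^ 2) +
        ∑ χ ∈ S, (∑ t ∈ Finset.Icc 1 (ℓ - 1), E (κ ^ t) χ / (ℓ : ℂ)) * r χ := by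
      rw [h1, hLL]
      have h4 : ∑ χ ∈ S, (∑ t ∈ Finset.Icc 1 (ℓ - 1), E (κ ^ t) χ) *
          (-(Nat.card E₀ : ℂ) + (ℓ : ℂ) * r χ) =
          -(Nat.card E₀ : ℂ) * ∑ t ∈ Finset.Icc 1 (ℓ - 1), ∑ χ ∈ S, E (κ ^ t) χ +
          (ℓ : ℂ) ^ 2 * ∑ χ ∈ S, (∑ t ∈ Finset.Icc 1 (ℓ - 1), E (κ ^ t) χ / (ℓ : ℂ)) * r χ := by
        rw [Finset.sum_comm (s := Finset.Icc 1 (ℓ - 1)), Finset.mul_sum, Finset.mul_sum,
          ← Finset.sum_add_distrib]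
        refine Finset.sum_congr rfl fun χ _ => ?_
        rw [← Finset.sum_div]
        field_simp
      rw [h4]
      field_simp
      ring
    rw [h3]
    refine (RM M).add_mem ((RM M).mul_mem ((RM M).neg_mem (hnat _)) hS2)
      ((RM M).sum_mem fun χ hχ => (RM M).mul_mem ((RM M).sum_mem fun t ht => ?_) (hr1 χ hχ))
    exact hE1 (κ ^ t) (a.pow_mem hκ t) χ hχ

end Pool.Agent.PP.SE.H59
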