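import Pool.Agent.ASE.Stmts5

/-!
# Squad ASE, row TS1: the part of `F₁₃`
-/

set_option autoImplicit false

open scoped BigOperators

noncomputable section

namespace Pool.Agent.PP.SE.H59

open Pool.Agent.Helper51_AWC Pool.Agent.Helper79_WRA Pool.Agent.PP Pool.Agent.PP.KF
open Pool.Agent.PP.K9 Pool.Agent.PP.K9.H97 Pool.Agent.PP.H75 Pool.Agent.PP.T3 Pool.Agent.PP.SO
open Pool.Agent.PP.SD

attribute [local instance] Ideal.Quotient.field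

section aux

variable {V₀ G : Type} [CommGroup V₀] [Group G] {M : Ideal (integralClosure ℤ ℂ)} [M.IsMaximal]

/-- the bilinear form of `L` -/
def Q13 {n : ℕ} (B : Bk (FF M) V₀ G) (m : ℕ) (L : Set (SO.SS n V₀)) (f f' : G → ℂ) : ℂ :=
  ((Nat.card (B.C (pL L)) : ℂ) * Nat.card (B.C (qL L)))⁻¹ *
    ∑ᶠ w : G × G, f w.1 * f' w.2 * {z : XX w.1 w.2 | ∀ s ∈ L,
      c13 m B.i w.1 z.1.1 z.1.2.1 z.1.2.2 s.1 s.2.1 s.2.2.1 s.2.2.2}.ncard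

omit [M.IsMaximal] in
theorem x13_eq {n : ℕ} (B : Bk (FF M) V₀ G) (m : ℕ) (a b : Subgroup V₀ → G → ℂ)
    (L : Set (SO.SS n V₀)) : X13 B m a b L = Q13 B m L (a (pL L)) (b (qL L)) := rfl

omit [M.IsMaximal] in
theorem q13_add_left [Finite G] {n : ℕ} (B : Bk (FF M) V₀ G) (m : ℕ) (L : Set (SO.SS n V₀))
    (f g f' : G → ℂ) : Q13 B m L (fun x => f x + g x) f' = Q13 B m L f f' + Q13 B m L g f' := by
  have := Fintype.ofFinite G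
  unfold Q13
  rw [finsum_eq_sum_of_fintype, finsum_eq_sum_of_fintype, finsum_eq_sum_of_fintype, ← mul_add,
    ← Finset.sum_add_distrib]
  congr 1
  exact Finset.sum_congr rfl fun w _ => by ring

omit [M.IsMaximal] in
theorem q13_add_right [Finite G] {n : ℕ} (B : Bk (FF M) V₀ G) (m : ℕ) (L : Set (SO.SS n V₀))
    (f f' g' : G → ℂ) : Q13 B m L f (fun x => f' x + g' x) = Q13 B m L f f' + Q13 B m L f g' := by
  have := Fintype.ofFinite G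
  unfold Q13
  rw [finsum_eq_sum_of_fintype, finsum_eq_sum_of_fintype, finsum_eq_sum_of_fintype, ← mul_add,
    ← Finset.sum_add_distrib]
  congr 1
  exact Finset.sum_congr rfl fun w _ => by ring

omit [M.IsMaximal] in
theorem q13_zero_left {n : ℕ} (B : Bk (FF M) V₀ G) (m : ℕ) (L : Set (SO.SS n V₀))
    (f' : G → ℂ) : Q13 B m L (fun _ => 0) f' = 0 := by
  unfold Q13
  simp

omit [M.IsMaximal] in
theorem q13_zero_right {n : ℕ} (B : Bk (FF M) V₀ G) (m : ℕ) (L : Set (SO.SS n V₀))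
    (f : G → ℂ) : Q13 B m L f (fun _ => 0) = 0 := by
  unfold Q13
  simp

/-- the sum over the labels of `c` at `W` -/
theorem lab_sum (lfm : LfmStmt) {ℓ : ℕ} [Fact ℓ.Prime] (hM : (ℓ : integralClosure ℤ ℂ) ∈ M)
    [Finite V₀] [Finite G] {E₀ : Subgroup (MulAut V₀)} (hF : Fq ℓ V₀ E₀)
    (B : Bk (FF M) V₀ G) (hB : Sb ℓ M E₀ B) (D : Rd V₀ G) (hD : Rs ℓ E₀ B D) {c : V₀}
    (hc : c ≠ 1) {W : Subgroup V₀} (hW : W ≠ ⊥) (Φ : (G → ℂ) → ℂ)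
    (hadd : ∀ f g : G → ℂ, Φ (fun x => f x + g x) = Φ f + Φ g) (h0 : Φ (fun _ => 0) = 0) :
    Φ (mnl E₀ B c W) - ∑ᶠ a ∈ {a : Subgroup V₀ | a ∈ RL ℓ E₀ ∧ c ∉ a},
      Φ (etl B D a (pr ℓ E₀ a c) W) = Φ (fm ℓ E₀ B D W c) := by
  obtain ⟨h1, h1', h3⟩ := lfm ℓ M hM V₀ G E₀ hF B hB D hD c hc W hW
  by_cases hWR : W ∈ RL ℓ E₀ ∧ c ∉ W
  · have e1 : mnl E₀ B c W = fun x => fm ℓ E₀ B D W c x + tk B (pr ℓ E₀ W c) (D.et W) x :=
      funext fun g => h1 hWR g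
    have e2 : ∑ᶠ a ∈ {a : Subgroup V₀ | a ∈ RL ℓ E₀ ∧ c ∉ a}, Φ (etl B D a (pr ℓ E₀ a c) W) =
        Φ (tk B (pr ℓ E₀ W c) (D.et W)) := by
      rw [finsum_mem_def, finsum_eq_single _ W]
      · rw [Set.indicator_of_mem (show W ∈ {a : Subgroup V₀ | a ∈ RL ℓ E₀ ∧ c ∉ a} from hWR)]
        exact congrArg Φ (funext fun g => (h3 W _ g).1 rfl)
      · intro a ha
        rw [Set.indicator_apply_eq_zero]
        intro _
        have e3 : etl B D a (pr ℓ E₀ a c) W = fun _ => 0 :=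
          funext fun g => (h3 a _ g).2 (Ne.symm ha)
        rw [e3, h0]
    rw [e2, e1, hadd]
    ring
  · have e1 : mnl E₀ B c W = fm ℓ E₀ B D W c := funext fun g => h1' hWR g
    have e2 : ∑ᶠ a ∈ {a : Subgroup V₀ | a ∈ RL ℓ E₀ ∧ c ∉ a}, Φ (etl B D a (pr ℓ E₀ a c) W) =
        0 := by
      refine finsum_mem_eq_zero_of_forall_eq_zero fun a ha => ?_
      have : W ≠ a := fun h => hWR (h ▸ ha)
      have e3 : etl B D a (pr ℓ E₀ a c) W = fun _ => 0 :=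
        funext fun g => (h3 a _ g).2 this
      rw [e3, h0]
    rw [e2, e1, sub_zero]

theorem mob_zero {A : Type} (F : Set A → ℚ) (L : Set A) (h : ∀ T, T ⊆ L → F T = 0) :
    mob F L = 0 := by
  unfold mob
  refine finsum_mem_eq_zero_of_forall_eq_zero fun T hT => ?_
  rw [h T hT, mul_zero]

theorem hm_one {V₁ : Type} [CommGroup V₁] {ℓ : ℕ} {ρ : V₁ → ZMod ℓ} (h : Hm ρ) : ρ 1 = 0 := by
  have h1 := h 1 1
  rw [mul_one] at h1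
  exact left_eq_add.1 h1

theorem pL_bot {n : ℕ} {L : Set (SO.SS n V₀)} (h : pL L = ⊥) {s : SO.SS n V₀} (hs : s ∈ L) :
    s.2.2.1 = 1 := by
  have h1 : s.2.2.1 ∈ pL L := Subgroup.subset_closure ⟨s, hs, rfl⟩
  rw [h] at h1
  exact Subgroup.mem_bot.1 h1

theorem qL_bot {n : ℕ} {L : Set (SO.SS n V₀)} (h : qL L = ⊥) {s : SO.SS n V₀} (hs : s ∈ L) :
    s.2.2.2 = 1 := by
  have h1 : s.2.2.2 ∈ qL L := Subgroup.subset_closure ⟨s, hs, rfl⟩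
  rw [h] at h1
  exact Subgroup.mem_bot.1 h1

end aux

/-- TS1 -/
theorem ts1 (lfm : LfmStmt) (x3r : X3rStmt) : Ts1Stmt := by
  intro ℓ _ M _ hM h2 V₀ G _ _ _ _ E₀ hF B hB D hD n m hP ρ₁ ρ₂ hρ₁ hρ₂ F hFz c d hc hd
  have hz : ∀ L : Set (SO.SS n V₀), ¬ (pL L ≠ ⊥ ∧ qL L ≠ ⊥) → mob F L = 0 := by
    intro L hL
    refine mob_zero F L fun T hT => hFz T ?_
    by_cases h : pL L = ⊥
    · refine Or.inl fun s hs => ?_
      rw [pL_bot h (hT hs), hm_one hρ₁]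
    · have h' : qL L = ⊥ := by
        by_contra h'
        exact hL ⟨h, h'⟩
      refine Or.inr fun s hs => ?_
      rw [qL_bot h' (hT hs), hm_one hρ₂]
  have hv : ∀ L : Set (SO.SS n V₀), pL L ≠ ⊥ → qL L ≠ ⊥ →
      X13 B m (mnl E₀ B c) (mnl E₀ B d) L -
      (∑ᶠ a ∈ {a : Subgroup V₀ | a ∈ RL ℓ E₀ ∧ c ∉ a},
        X13 B m (etl B D a (pr ℓ E₀ a c)) (mnl E₀ B d) L) -
      (∑ᶠ b ∈ {b : Subgroup V₀ | b ∈ RL ℓ E₀ ∧ d ∉ b},
        X13 B m (mnl E₀ B c) (etl B D b (pr ℓ E₀ b d)) L) +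
      ∑ᶠ a ∈ {a : Subgroup V₀ | a ∈ RL ℓ E₀ ∧ c ∉ a},
        ∑ᶠ b ∈ {b : Subgroup V₀ | b ∈ RL ℓ E₀ ∧ d ∉ b},
          X13 B m (etl B D a (pr ℓ E₀ a c)) (etl B D b (pr ℓ E₀ b d)) L =
        ((P13 ℓ E₀ D.U D.fx c d L : ℚ) : ℂ) := by
    intro L hp hq
    rw [← x3r ℓ M hM h2 V₀ G E₀ hF B hB D hD n m hP c d L hp hq]
    simp only [x13_eq]
    have a1 : ∀ f : G → ℂ, Q13 B m L f (mnl E₀ B d (qL L)) -
        ∑ᶠ b ∈ {b : Subgroup V₀ | b ∈ RL ℓ E₀ ∧ d ∉ b},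
          Q13 B m L f (etl B D b (pr ℓ E₀ b d) (qL L)) = Q13 B m L f (fm ℓ E₀ B D (qL L) d) :=
      fun f => lab_sum lfm hM hF B hB.toSb D hD hd hq (Q13 B m L f)
        (q13_add_right B m L f) (q13_zero_right B m L f)
    have a2 : ∀ f' : G → ℂ, Q13 B m L (mnl E₀ B c (pL L)) f' -
        ∑ᶠ a ∈ {a : Subgroup V₀ | a ∈ RL ℓ E₀ ∧ c ∉ a},
          Q13 B m L (etl B D a (pr ℓ E₀ a c) (pL L)) f' = Q13 B m L (fm ℓ E₀ B D (pL L) c) f' :=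
      fun f' => lab_sum lfm hM hF B hB.toSb D hD hc hp (fun f => Q13 B m L f f')
        (fun f g => q13_add_left B m L f g f') (q13_zero_left B m L f')
    have a3 : (∑ᶠ a ∈ {a : Subgroup V₀ | a ∈ RL ℓ E₀ ∧ c ∉ a},
        ∑ᶠ b ∈ {b : Subgroup V₀ | b ∈ RL ℓ E₀ ∧ d ∉ b},
          Q13 B m L (etl B D a (pr ℓ E₀ a c) (pL L)) (etl B D b (pr ℓ E₀ b d) (qL L))) =
        (∑ᶠ a ∈ {a : Subgroup V₀ | a ∈ RL ℓ E₀ ∧ c ∉ a},
          Q13 B m L (etl B D a (pr ℓ E₀ a c) (pL L)) (mnl E₀ B d (qL L))) -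
        ∑ᶠ a ∈ {a : Subgroup V₀ | a ∈ RL ℓ E₀ ∧ c ∉ a},
          Q13 B m L (etl B D a (pr ℓ E₀ a c) (pL L)) (fm ℓ E₀ B D (qL L) d) := by
      rw [← finsum_mem_sub_distrib _ _ (Set.toFinite _)]
      refine finsum_mem_congr rfl fun a _ => ?_
      rw [← a1 (etl B D a (pr ℓ E₀ a c) (pL L))]
      ring
    rw [a3]
    have a4 := a1 (mnl E₀ B c (pL L))
    have a5 := a2 (fm ℓ E₀ B D (qL L) d)
    linear_combination a4 + a5
  have := Fintype.ofFinite (Set (SO.SS n V₀))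
  rw [finsum_eq_sum_of_fintype, finsum_mem_def, finsum_eq_sum_of_fintype, Rat.cast_sum]
  refine Finset.sum_congr rfl fun L _ => ?_
  by_cases hL : pL L ≠ ⊥ ∧ qL L ≠ ⊥
  · rw [hv L hL.1 hL.2, Set.indicator_of_mem
      (show L ∈ {L : Set (SO.SS n V₀) | pL L ≠ ⊥ ∧ qL L ≠ ⊥} from hL), Rat.cast_mul]
  · rw [hz L hL, Set.indicator_of_notMem
      (show L ∉ {L : Set (SO.SS n V₀) | pL L ≠ ⊥ ∧ qL L ≠ ⊥} from hL), Rat.cast_zero, zero_mul]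

end Pool.Agent.PP.SE.H59
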